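import Mathlib
import Pool.Agent.R634.WreathBox

/-!
# MP_3fb3e0: upper bounds for the conjugacy depth of `𝔽_p ≀ ℤ^k` and `ℤ ≀ ℤ^k`

Both Q1 and Q2 are answered positively.
-/

namespace Pool.Agent.Results.MP_3fb3e0_al.BoxBound

open Pool.Agent.R634

lemma exists_value {G : Type*} [Group G] {S : Set G} {B : ℕ → ℕ}
    (h : ∀ n, conjDepth S n ≤ (B n : ℕ∞)) :
    ∃ F : ℕ → ℕ, (∀ n, conjDepth S n = F n) ∧ ∀ n, F n ≤ B n := by
  have h1 : ∀ n, ∃ m : ℕ, conjDepth S n = m ∧ m ≤ B n := by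
    intro n
    have hne : conjDepth S n ≠ ⊤ := ne_top_of_le_ne_top (ENat.natCast_ne_top _) (h n)
    obtain ⟨m, hm⟩ := ENat.ne_top_iff_exists.mp hne
    refine ⟨m, hm.symm, ?_⟩
    have := h n
    rw [← hm] at this
    exact_mod_cast this
  choose F hF using h1
  exact ⟨F, fun n => (hF n).1, fun n => (hF n).2⟩

lemma two_mul_pow_le {a k : ℕ} (_ha : 1 ≤ a) (hk : 1 ≤ k) (M : ℕ) : a * M ^ k ≤ (a * M) ^ k := by
  rw [mul_pow]
  exact Nat.mul_le_mul_right _ (Nat.le_self_pow (by omega) a)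

lemma bound_prime (p k ρ n : ℕ) (hp : 1 ≤ p) (hk : 1 ≤ k) (hρ : 1 ≤ ρ) :
    p ^ ((12 * (ρ * n) + 1) ^ k) * (12 * (ρ * n) + 1) ^ k ≤
      (26 * p * ρ) * 2 ^ ((26 * p * ρ * n) ^ k) := by
  rcases Nat.eq_zero_or_pos n with rfl | hn
  · have h1 : 1 ≤ 2 ^ ((26 * p * ρ * 0) ^ k) := Nat.one_le_two_pow
    simp only [mul_zero, zero_add, one_pow, pow_one, mul_one] at h1 ⊢
    calc p ≤ 26 * p * ρ := by nlinarith
      _ ≤ 26 * p * ρ * 2 ^ (0 ^ k) := Nat.le_mul_of_pos_right _ h1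
  · set M := 12 * (ρ * n) + 1 with hM
    have h1 : M ^ k ≤ 2 ^ (M ^ k) := Nat.lt_two_pow_self.le
    have h2 : M ≤ 13 * (ρ * n) := by
      have : 1 ≤ ρ * n := Nat.mul_pos hρ hn
      omega
    have h3 : p ^ (M ^ k) * M ^ k ≤ 2 ^ ((26 * p * ρ * n) ^ k) := by
      calc p ^ (M ^ k) * M ^ k ≤ p ^ (M ^ k) * 2 ^ (M ^ k) := Nat.mul_le_mul_left _ h1
        _ = (p * 2) ^ (M ^ k) := (mul_pow _ _ _).symm
        _ ≤ (2 ^ (2 * p)) ^ (M ^ k) := by
            apply Nat.pow_le_pow_left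
            have : 2 * p < 2 ^ (2 * p) := Nat.lt_two_pow_self
            omega
        _ = 2 ^ (2 * p * M ^ k) := (pow_mul _ _ _).symm
        _ ≤ 2 ^ ((26 * p * ρ * n) ^ k) := by
            apply Nat.pow_le_pow_right (by norm_num)
            calc 2 * p * M ^ k ≤ (2 * p * M) ^ k := two_mul_pow_le (by omega) hk M
              _ ≤ (26 * p * ρ * n) ^ k := by
                  apply Nat.pow_le_pow_left
                  calc 2 * p * M ≤ 2 * p * (13 * (ρ * n)) := Nat.mul_le_mul_left _ h2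
                    _ = 26 * p * ρ * n := by ring
    refine h3.trans (Nat.le_mul_of_pos_left _ ?_)
    positivity

lemma bound_int (k ρ n : ℕ) (hk : 1 ≤ k) (hρ : 1 ≤ ρ) :
    (2 * (ρ * n) + 1) ^ ((12 * (ρ * n) + 1) ^ k) * (12 * (ρ * n) + 1) ^ k ≤
      (26 * ρ * n) ^ ((26 * ρ * n) ^ k) := by
  rcases Nat.eq_zero_or_pos n with rfl | hn
  · have hk0 : k ≠ 0 := by omega
    simp [hk0]
  · set M := 12 * (ρ * n) + 1 with hM
    have h1n : 1 ≤ ρ * n := Nat.mul_pos hρ hn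
    have h2 : M ≤ 13 * (ρ * n) := by omega
    have hkM : k ≤ M ^ k := (Nat.lt_pow_self (by omega : 1 < M)).le
    calc (2 * (ρ * n) + 1) ^ (M ^ k) * M ^ k ≤ M ^ (M ^ k) * M ^ (M ^ k) := by
          apply Nat.mul_le_mul
          · exact Nat.pow_le_pow_left (by omega) _
          · exact Nat.pow_le_pow_right (by omega) hkM
      _ = M ^ (2 * M ^ k) := by rw [two_mul, pow_add]
      _ ≤ M ^ ((26 * ρ * n) ^ k) := by
          apply Nat.pow_le_pow_right (by omega)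
          calc 2 * M ^ k ≤ (2 * M) ^ k := two_mul_pow_le (by omega) hk M
            _ ≤ (26 * ρ * n) ^ k := by
                apply Nat.pow_le_pow_left
                calc 2 * M ≤ 2 * (13 * (ρ * n)) := Nat.mul_le_mul_left _ h2
                  _ = 26 * ρ * n := by ring
      _ ≤ (26 * ρ * n) ^ ((26 * ρ * n) ^ k) := by
          apply Nat.pow_le_pow_left
          nlinarith

lemma bound_log (k C n : ℕ) (hk : 1 ≤ k) (hC : 16 ≤ C) :
    ((C * n : ℕ) : ℝ) ^ ((C * n) ^ k) ≤ ((2 * C : ℕ) : ℝ) *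
      Real.log ((2 * C * n : ℕ) : ℝ) ^ ((2 * C * n) ^ (2 * k)) := by
  rcases Nat.eq_zero_or_pos n with rfl | hn
  · have hk0 : k ≠ 0 := by omega
    have h2k0 : 2 * k ≠ 0 := by omega
    simp only [mul_zero, ne_eq, hk0, not_false_eq_true, zero_pow, h2k0, pow_zero, mul_one]
    have : (1:ℝ) ≤ ((2 * C : ℕ) : ℝ) := by exact_mod_cast (by omega : 1 ≤ 2 * C)
    exact this
  · have hCn : 16 ≤ C * n := le_trans hC (Nat.le_mul_of_pos_right _ hn)
    have hlog : (2:ℝ) ≤ Real.log ((2 * C * n : ℕ) : ℝ) := by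
      rw [Real.le_log_iff_exp_le (by positivity)]
      have h1 : Real.exp 2 = Real.exp 1 * Real.exp 1 := by
        rw [← Real.exp_add]; norm_num
      have h2 : Real.exp 1 < 2.7182818286 := Real.exp_one_lt_d9
      have h3 : (0:ℝ) < Real.exp 1 := Real.exp_pos 1
      have h4 : Real.exp 2 ≤ 16 := by rw [h1]; nlinarith
      have h5 : (16:ℝ) ≤ ((2 * C * n : ℕ) : ℝ) := by
        exact_mod_cast (by nlinarith : 16 ≤ 2 * C * n)
      linarith
    have hnat : (C * n) ^ ((C * n) ^ k) ≤ 2 ^ ((2 * C * n) ^ (2 * k)) := by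
      calc (C * n) ^ ((C * n) ^ k) ≤ (2 ^ (C * n)) ^ ((C * n) ^ k) :=
            Nat.pow_le_pow_left Nat.lt_two_pow_self.le _
        _ = 2 ^ (C * n * (C * n) ^ k) := (pow_mul _ _ _).symm
        _ ≤ 2 ^ ((2 * C * n) ^ (2 * k)) := by
            apply Nat.pow_le_pow_right (by norm_num)
            calc C * n * (C * n) ^ k = (C * n) ^ (k + 1) := by ring
              _ ≤ (C * n) ^ (2 * k) := Nat.pow_le_pow_right (by omega) (by omega)
              _ ≤ (2 * C * n) ^ (2 * k) := by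
                  apply Nat.pow_le_pow_left
                  nlinarith
    calc ((C * n : ℕ) : ℝ) ^ ((C * n) ^ k) ≤ (2:ℝ) ^ ((2 * C * n) ^ (2 * k)) := by
          exact_mod_cast hnat
      _ ≤ Real.log ((2 * C * n : ℕ) : ℝ) ^ ((2 * C * n) ^ (2 * k)) :=
          pow_le_pow_left₀ (by norm_num) hlog _
      _ ≤ _ := by
          apply le_mul_of_one_le_left
          · positivity
          · exact_mod_cast (by omega : 1 ≤ 2 * C)

/-- **Positive answer to Q1 and Q2 of MP_3fb3e0.** Here `Wreath R (Fin k → ℤ)` is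
`R ≀ ℤ^k = R[X₁^{±1}, …, X_k^{±1}] ⋊ ℤ^k`, `conjDepth S` is the conjugacy depth function with
respect to the generating set `S`, and `F` records that it is finite-valued.
* (Q1) for every prime `p` and `k ≥ 1`: `Conj_{𝔽_p ≀ ℤ^k}(n) ⪯ 2 ^ (n ^ k)`;
* (Q2) for every `k ≥ 1`: `Conj_{ℤ ≀ ℤ^k}(n) ⪯ (log n) ^ (n ^ (2 k))`;
* and in fact `Conj_{ℤ ≀ ℤ^k}(n) ⪯ n ^ (n ^ k)`. -/
theorem result :
    (∀ (p : ℕ), p.Prime → ∀ k : ℕ, 1 ≤ k → ∀ S : Set (Wreath (ZMod p) (Fin k → ℤ)), S.Finite →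
      Subgroup.closure S = ⊤ →
      ∃ F : ℕ → ℕ, (∀ n, conjDepth S n = F n) ∧
        Preceq (fun n => (F n : ℝ)) (fun n => (2:ℝ) ^ (n ^ k))) ∧
    (∀ k : ℕ, 1 ≤ k → ∀ S : Set (Wreath ℤ (Fin k → ℤ)), S.Finite →
      Subgroup.closure S = ⊤ →
      ∃ F : ℕ → ℕ, (∀ n, conjDepth S n = F n) ∧
        Preceq (fun n => (F n : ℝ)) (fun n => Real.log n ^ (n ^ (2 * k))) ∧
        Preceq (fun n => (F n : ℝ)) (fun n => (n:ℝ) ^ (n ^ k))) := by
  classical
  constructor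
  · intro p hp k hk S hS _
    have : NeZero p := ⟨hp.ne_zero⟩
    obtain ⟨ρ, hρ, h⟩ := conjDepth_box (isSize_discrete (ZMod p)) hk hS
    have hb : ∀ n, conjDepth S n ≤ ((p ^ ((12 * (ρ * n) + 1) ^ k) * (12 * (ρ * n) + 1) ^ k : ℕ)
        : ℕ∞) := by
      intro n
      have := h n (ZMod p) (AddMonoidHom.id _) (fun z _ hz => hz)
      rwa [Nat.card_eq_fintype_card, ZMod.card] at this
    obtain ⟨F, hF, hFB⟩ := exists_value hb
    refine ⟨F, hF, 26 * p * ρ, ?_, ?_⟩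
    · have := hp.one_le
      nlinarith
    · intro n
      have h1 := (hFB n).trans (bound_prime p k ρ n hp.one_le hk hρ)
      simp only
      exact_mod_cast h1
  · intro k hk S hS _
    obtain ⟨ρ, hρ, h⟩ := conjDepth_box isSize_int hk hS
    have hb : ∀ n, conjDepth S n ≤ (((26 * ρ * n) ^ ((26 * ρ * n) ^ k) : ℕ) : ℕ∞) := by
      intro n
      have h1 := h n (ZMod (2 * (ρ * n) + 1)) (Int.castAddHom _)
        (fun z hz hz0 => int_cast_inj z hz hz0)
      rw [Nat.card_eq_fintype_card, ZMod.card] at h1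
      refine h1.trans ?_
      exact_mod_cast bound_int k ρ n hk hρ
    obtain ⟨F, hF, hFB⟩ := exists_value hb
    refine ⟨F, hF, ⟨2 * (26 * ρ), by omega, ?_⟩, ⟨26 * ρ, by omega, ?_⟩⟩
    · intro n
      have h1 : (F n : ℝ) ≤ ((26 * ρ * n : ℕ) : ℝ) ^ ((26 * ρ * n) ^ k) := by
        exact_mod_cast hFB n
      exact h1.trans (bound_log k (26 * ρ) n hk (by omega))
    · intro n
      have h1 : (F n : ℝ) ≤ ((26 * ρ * n : ℕ) : ℝ) ^ ((26 * ρ * n) ^ k) := by
        exact_mod_cast hFB n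
      refine h1.trans ?_
      apply le_mul_of_one_le_left (by positivity)
      exact_mod_cast (by omega : 1 ≤ 26 * ρ)

end Pool.Agent.Results.MP_3fb3e0_al.BoxBound
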